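import Mathlib

set_option autoImplicit false

namespace Pool.Agent.Results.MP_5a9afa_al.ProductFails

/-- `a` has unit stable range one. -/
def UnitStableRangeOne {R : Type} [Ring R] (a : R) : Prop :=
  ∀ b : R, (∃ r s : R, r * a + s * b = 1) → ∃ u : Rˣ, IsUnit (a + u * b)

def M : Submonoid ℤ where
  carrier := {n | ∀ p : ℕ, p.Prime → (p : ℤ) ∣ n → p % 8 = 1 ∨ p % 8 = 7}
  one_mem' := by
    intro p hp h
    exact absurd (Int.natCast_dvd_natCast.1 (show (p : ℤ) ∣ (1 : ℕ) from h)) hp.not_dvd_one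
  mul_mem' := by
    intro a b ha hb p hp h
    exact ((Nat.prime_iff_prime_int.1 hp).dvd_or_dvd h).elim (ha p hp) (hb p hp)

theorem M_dvd {a b : ℤ} (h : a ∣ b) (hb : b ∈ M) : a ∈ M :=
  fun p hp h1 => hb p hp (h1.trans h)

theorem M_mod (n : ℤ) (hn : n ∈ M) : n % 8 = 1 ∨ n % 8 = 7 := by
  have key : ∀ k : ℕ, (k : ℤ) ∈ M → k % 8 = 1 ∨ k % 8 = 7 := by
    intro k
    induction k using Nat.recOnMul with
    | zero =>
      intro h
      have := h 2 Nat.prime_two (by simp)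
      omega
    | one => intro _; simp
    | prime p hp => intro h; exact h p hp dvd_rfl
    | mul a b iha ihb =>
      intro h
      push_cast at h
      have h1 := iha (M_dvd (dvd_mul_right _ _) h)
      have h2 := ihb (M_dvd (dvd_mul_left _ _) h)
      rw [Nat.mul_mod]
      rcases h1 with h1 | h1 <;> rcases h2 with h2 | h2 <;> simp [h1, h2]
  have := key n.natAbs (M_dvd (Int.natAbs_dvd.2 dvd_rfl) hn)
  omega

theorem mem_M (x y : ℤ) (hx : Odd x) (h : IsCoprime x y) : x ^ 2 - 2 * y ^ 2 ∈ M := by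
  intro p hp hd
  have := Fact.mk hp
  have hp2 : p ≠ 2 := by
    rintro rfl
    obtain ⟨k, rfl⟩ := hx
    obtain ⟨c, hc⟩ := hd
    have : (2 * k + 1) ^ 2 - 2 * y ^ 2 = 2 * (2 * k ^ 2 + 2 * k - y ^ 2) + 1 := by ring
    push_cast at hc
    omega
  rw [← ZMod.exists_sq_eq_two_iff hp2]
  have h0 : ((x ^ 2 - 2 * y ^ 2 : ℤ) : ZMod p) = 0 := (ZMod.intCast_zmod_eq_zero_iff_dvd _ _).2 hd
  push_cast at h0
  have hy : (y : ZMod p) ≠ 0 := by
    intro hy
    have hx0 : (x : ZMod p) = 0 := by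
      rw [hy] at h0
      simpa using h0
    obtain ⟨a, b, hab⟩ := h
    have := congrArg (Int.cast : ℤ → ZMod p) hab
    push_cast at this
    rw [hx0, hy] at this
    simp at this
  refine ⟨x / y, ?_⟩
  field_simp
  linear_combination -h0

theorem repr_pos (n : ℤ) (hn : n % 4 = 3) : ∃ u v : ℤ, u ∈ M ∧ v ∈ M ∧ 2 * u - v = n := by
  have hv : ∀ x : ℤ, (2 * x + 1) ^ 2 - 2 * x ^ 2 ∈ M := fun x =>
    mem_M _ _ ⟨x, rfl⟩ ⟨1, -2, by ring⟩
  have : n % 8 = 7 ∨ n % 8 = 3 := by omega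
  rcases this with h | h
  · obtain ⟨k, rfl⟩ : ∃ k, n = -8 * k - 9 := ⟨-(n + 9) / 8, by omega⟩
    exact ⟨_, _, mem_M (2 * k + 1) 1 ⟨k, rfl⟩ isCoprime_one_right, hv (2 * k + 1), by ring⟩
  · obtain ⟨k, rfl⟩ : ∃ k, n = -8 * k - 21 := ⟨-(n + 21) / 8, by omega⟩
    exact ⟨_, _, mem_M (2 * k + 1) 2 ⟨k, rfl⟩ ⟨1, -k, by ring⟩, hv (2 * k + 1), by ring⟩

theorem repr (n : ℤ) (hn : n % 2 = 1) : ∃ u v : ℤ, u ∈ M ∧ v ∈ M ∧ 2 * u - v = n := by
  have : n % 4 = 3 ∨ (-n) % 4 = 3 := by omega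
  rcases this with h | h
  · exact repr_pos n h
  · obtain ⟨u, v, hu, hv, e⟩ := repr_pos _ h
    exact ⟨-u, -v, M_dvd (neg_dvd.2 dvd_rfl) hu, M_dvd (neg_dvd.2 dvd_rfl) hv, by omega⟩

abbrev L := Localization M

theorem unit_iff (n : ℤ) : IsUnit (algebraMap ℤ L n) ↔ n ∈ M := by
  rw [IsLocalization.algebraMap_isUnit_iff M]
  exact ⟨fun ⟨m, hm, h⟩ => M_dvd h hm, fun h => ⟨n, h, dvd_rfl⟩⟩

theorem two : UnitStableRangeOne (2 : L) := by
  rintro b ⟨r, s, hrs⟩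
  obtain ⟨⟨n, m⟩, hb⟩ := IsLocalization.surj M b
  simp only at hb
  have hm := IsLocalization.map_units L m
  have hn : n % 2 = 1 := by
    by_contra hn
    obtain ⟨k, rfl⟩ : ∃ k, n = 2 * k := ⟨n / 2, by omega⟩
    have h2 : IsUnit (algebraMap ℤ L 2) := by
      refine isUnit_of_dvd_unit ⟨r * algebraMap ℤ L m + s * algebraMap ℤ L k, ?_⟩ hm
      rw [map_mul] at hb
      have e2 : algebraMap ℤ L 2 = 2 := map_ofNat _ 2
      rw [e2] at hb ⊢
      linear_combination s * hb - algebraMap ℤ L m * hrs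
    have := M_mod _ ((unit_iff 2).1 h2)
    omega
  obtain ⟨u, v, hu, hv, e⟩ := repr n hn
  obtain ⟨U, hU⟩ := (unit_iff u).2 hu
  obtain ⟨W, hW⟩ := hm
  refine ⟨-(W * U⁻¹), ?_⟩
  have h1 : (2 + ((-(W * U⁻¹) : Lˣ) : L) * b) * U = algebraMap ℤ L v := by
    have e1 : v = 2 * u - n := by omega
    have e2 : algebraMap ℤ L 2 = 2 := map_ofNat _ 2
    rw [e1, map_sub, map_mul, e2, ← hU, ← hb, ← hW]
    have := U.inv_mul
    push_cast
    linear_combination (-(W : L) * b) * this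
  exact isUnit_of_mul_isUnit_left (h1 ▸ (unit_iff v).2 hv)

theorem four : ¬ UnitStableRangeOne (2 * 2 : L) := by
  intro h
  obtain ⟨u, hu⟩ := h 1 ⟨0, 1, by simp⟩
  obtain ⟨⟨n, m⟩, hb⟩ := IsLocalization.surj M (u : L)
  simp only at hb
  have hm := IsLocalization.map_units L m
  have h1 : n ∈ M := (unit_iff n).1 (hb ▸ u.isUnit.mul hm)
  have h2 : 4 * m + n ∈ M := by
    rw [← unit_iff]
    have e4 : algebraMap ℤ L 4 = 4 := map_ofNat _ 4
    have : algebraMap ℤ L (4 * m + n) = (2 * 2 + u * 1) * algebraMap ℤ L m := by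
      rw [map_add, map_mul, e4, ← hb]; ring
    rw [this]
    exact hu.mul hm
  have h3 := M_mod _ h1
  have h4 := M_mod _ h2
  have h5 := M_mod _ m.2
  omega

/-- Two elements of unit stable range one whose product does not have unit stable range one. -/
theorem result : ∃ (R : Type) (_ : Ring R) (a b : R),
    UnitStableRangeOne a ∧ UnitStableRangeOne b ∧ ¬ UnitStableRangeOne (a * b) :=
  ⟨L, inferInstance, 2, 2, two, two, four⟩

end Pool.Agent.Results.MP_5a9afa_al.ProductFails
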